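import Pool.Agent.Helper74.RP.Center0

/-!
# The limit point at infinity
-/

set_option autoImplicit false

namespace Pool.Agent.Helper74.RP

open MvPolynomial Filter Topology Pool.Agent.Helper65.RP

section D
variable {K Kb Ω : Type} [Field K] [Field Kb] [Algebra K Kb] [IsAlgClosure K Kb]
  [NormedField Ω] [IsAlgClosed Ω] [Algebra K Ω] [Algebra Kb Ω] [IsScalarTower K Kb Ω] {N : ℕ}
  {𝒰 : Ultrafilter ℕ} {s : ℕ → ℝ} {z : ℕ → Fin N → K} {i₀ : Fin N}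

/-- D3, from D1 and D2 -/
theorem exists_center_of (h : Lev Ω 𝒰 s z i₀)
    (hD1 : ∃ (a : ℕ) (A : Fin a → MvPolynomial (Fin N) Kb) (α : Fin a → ℝ), 0 < a ∧
      (∀ j, HasOrd 𝒰 s (ev Ω z (A j)) (α j)) ∧ (∀ j j', j ≠ j' → ∀ k : ℤ, α j - α j' ≠ k) ∧
      ∀ p : MvPolynomial (Fin N) Kb, (∀ᶠ n in (𝒰 : Filter ℕ), ev Ω z p n = 0) ∨
        ∃ k : ℤ, HasOrd 𝒰 s (ev Ω z p) ((k : ℝ) / a))
    (hD2 : ∀ (p q : MvPolynomial (Fin N) Kb) (α : ℝ), HasOrd 𝒰 s (ev Ω z p) α →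
      HasOrd 𝒰 s (ev Ω z q) α → ∃ c : Kb, c ≠ 0 ∧
      ((∀ᶠ n in (𝒰 : Filter ℕ), ev Ω z (p - C c * q) n = 0) ∨
        ∃ β : ℝ, α < β ∧ HasOrd 𝒰 s (ev Ω z (p - C c * q)) β)) :
    ∃ q : Fin N → Kb, IsCenter Ω 𝒰 s z i₀ q := by
  obtain ⟨a, A, α, -, -, -, hval⟩ := hD1
  refine exists_center0 h (fun p => ?_) hD2
  rcases hval p with h1 | ⟨k, h1⟩
  · exact Or.inl h1
  · exact Or.inr ⟨_, h1⟩

/-- D4, from D1 -/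
theorem change_index_of {i₁ : Fin N} (h : Lev Ω 𝒰 s z i₁)
    (hD1 : ∃ (a : ℕ) (A : Fin a → MvPolynomial (Fin N) Kb) (α : Fin a → ℝ), 0 < a ∧
      (∀ j, HasOrd 𝒰 s (ev Ω z (A j)) (α j)) ∧ (∀ j j', j ≠ j' → ∀ k : ℤ, α j - α j' ≠ k) ∧
      ∀ p : MvPolynomial (Fin N) Kb, (∀ᶠ n in (𝒰 : Filter ℕ), ev Ω z p n = 0) ∨
        ∃ k : ℤ, HasOrd 𝒰 s (ev Ω z p) ((k : ℝ) / a))
    {q₁ : Fin N → Kb}
    (hq : IsCenter Ω 𝒰 s z i₁ q₁) (q : Fin N → Kb) (c : Kb) (hc : c ≠ 0)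
    (hqq : ∀ i, q₁ i = c * q i) (hq0 : q i₀ = 1) :
    Lev Ω 𝒰 s z i₀ ∧ IsCenter Ω 𝒰 s z i₀ q := by
  obtain ⟨a, A, α, -, -, -, hval⟩ := hD1
  refine change_index0 h (fun p => ?_) hq q c hc hqq hq0
  rcases hval p with h1 | ⟨k, h1⟩
  · exact Or.inl h1
  · exact Or.inr ⟨_, h1⟩

/-- G1 -/
theorem center_map {d : ℕ} {f : Fin N → MvPolynomial (Fin N) K} (hf : Regular Kb d f)
    (h : Lev Ω 𝒰 s z i₀) {q : Fin N → Kb} (hq : IsCenter Ω 𝒰 s z i₀ q)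
    {s' : ℕ → ℝ} {z' : ℕ → Fin N → K} {j₀ : Fin N} (h' : Lev Ω 𝒰 s' z' j₀) {q' : Fin N → Kb}
    (hq' : IsCenter Ω 𝒰 s' z' j₀ q') (_hs : ∀ᶠ n in (𝒰 : Filter ℕ), s n = d * s' n)
    (hz : ∀ᶠ n in (𝒰 : Filter ℕ), ∀ i, z n i = eval (z' n) (f i)) :
    ∃ c : Kb, c ≠ 0 ∧ ∀ i, aeval q' (homogeneousComponent d (f i)) = c * q i :=
  center_map0 hf h hq h' hq' hz

/-- G2 -/
theorem center_mem (h : Lev Ω 𝒰 s z i₀) {q : Fin N → Kb} (hq : IsCenter Ω 𝒰 s z i₀ q)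
    {F : MvPolynomial (Fin N) K} (hF : F ∈ van 𝒰 z) :
    aeval q (homogeneousComponent F.totalDegree F) = 0 :=
  center_mem0 h hq hF

end D

end Pool.Agent.Helper74.RP
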