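import Pool.Agent.Helper65.RP.Defs2

/-!
# Project RP, module N2: dimension of iterated fibres
-/

set_option autoImplicit false

namespace Pool.Agent.Helper74.RP

open Pool.Agent.Helper65.RP MvPolynomial

/-- Successive approximation: `P'` is generated by a subspace stable under `P` modulo the image
of a power of `𝔐`. -/
theorem approx_pow {L P P' : Type} [Field L] [CommRing P] [Algebra L P] [CommRing P']
    [Algebra L P'] (φ : P →ₐ[L] P') (𝔐 : Ideal P) (𝔠 : Ideal P') (N : Submodule L P')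
    (hN : ∀ (p : P) (w : P'), w ∈ N → φ p * w ∈ N)
    (h : ∀ z : P', ∃ w ∈ N, z - w ∈ 𝔐.map (φ : P →+* P') ⊔ 𝔠) (k : ℕ) :
    ∀ z : P', ∃ w ∈ N, z - w ∈ (𝔐 ^ k).map (φ : P →+* P') ⊔ 𝔠 := by
  induction k with
  | zero =>
    intro z
    refine ⟨0, N.zero_mem, ?_⟩
    rw [pow_zero, Ideal.one_eq_top, Ideal.map_top, top_sup_eq]
    exact Submodule.mem_top
  | succ k ih =>
    intro z
    obtain ⟨w, hw, hzw⟩ := ih z
    obtain ⟨v, hv, c, hc, hvc⟩ := Submodule.mem_sup.1 hzw
    have key : ∀ v ∈ (𝔐 ^ k).map (φ : P →+* P'), ∀ a : P',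
        ∃ w ∈ N, a * v - w ∈ (𝔐 ^ (k + 1)).map (φ : P →+* P') ⊔ 𝔠 := by
      intro v hv
      rw [Ideal.map] at hv
      induction hv using Submodule.span_induction with
      | mem x hx =>
        intro a
        obtain ⟨m, hm, rfl⟩ := hx
        obtain ⟨w, hw, h1w⟩ := h a
        refine ⟨φ m * w, hN m w hw, ?_⟩
        have e1 : a * (φ : P →+* P') m - φ m * w = φ m * (a - w) := by
          rw [mul_sub, mul_comm a]
          rfl
        rw [e1]
        obtain ⟨a, ha, b, hb, hab⟩ := Submodule.mem_sup.1 h1w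
        rw [← hab, mul_add]
        refine Submodule.add_mem_sup ?_ (Ideal.mul_mem_left _ _ hb)
        rw [pow_succ, Ideal.map_mul]
        exact Ideal.mul_mem_mul (Ideal.mem_map_of_mem (φ : P →+* P') hm) ha
      | zero =>
        intro a
        exact ⟨0, N.zero_mem, by rw [sub_zero, mul_zero]; exact Ideal.zero_mem _⟩
      | add x y _ _ hx hy =>
        intro a
        obtain ⟨w1, hw1, h1⟩ := hx a
        obtain ⟨w2, hw2, h2⟩ := hy a
        refine ⟨w1 + w2, N.add_mem hw1 hw2, ?_⟩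
        rw [mul_add, add_sub_add_comm]
        exact Ideal.add_mem _ h1 h2
      | smul b x _ hx =>
        intro a
        obtain ⟨w, hw, h1⟩ := hx (a * b)
        refine ⟨w, hw, ?_⟩
        rw [smul_eq_mul, ← mul_assoc]
        exact h1
    obtain ⟨w', hw', hvw'⟩ := key v hv 1
    rw [one_mul] at hvw'
    refine ⟨w + w', N.add_mem hw hw', ?_⟩
    have e2 : z - (w + w') = (v - w') + c := by
      rw [← sub_sub, ← hvc]; ring
    rw [e2]
    exact Ideal.add_mem _ hvw' (Ideal.mem_sup_right hc)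

/-- Dimension of iterated fibres. -/
theorem finrank_chain {L P P' : Type} [Field L] [CommRing P] [Algebra L P] [CommRing P']
    [Algebra L P'] (φ : P →ₐ[L] P') (𝔐 𝔞 : Ideal P) (𝔠 : Ideal P')
    (h1 : ∀ x : P, ∃ c : L, x - algebraMap L P c ∈ 𝔐) {n : ℕ} (hn : 𝔐 ^ n ≤ 𝔞)
    [FiniteDimensional L (P ⧸ 𝔞)]
    [FiniteDimensional L (P' ⧸ (𝔐.map (φ : P →+* P') ⊔ 𝔠))] :
    FiniteDimensional L (P' ⧸ (𝔞.map (φ : P →+* P') ⊔ 𝔠)) ∧
      Module.finrank L (P' ⧸ (𝔞.map (φ : P →+* P') ⊔ 𝔠)) ≤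
        Module.finrank L (P ⧸ 𝔞) * Module.finrank L (P' ⧸ (𝔐.map (φ : P →+* P') ⊔ 𝔠)) := by
  have hs1 : LinearMap.range (Ideal.Quotient.mkₐ L 𝔞).toLinearMap = ⊤ :=
    LinearMap.range_eq_top.2 (Ideal.Quotient.mkₐ_surjective L 𝔞)
  have hs2 : LinearMap.range
      (Ideal.Quotient.mkₐ L (𝔐.map (φ : P →+* P') ⊔ 𝔠)).toLinearMap = ⊤ :=
    LinearMap.range_eq_top.2 (Ideal.Quotient.mkₐ_surjective L _)
  obtain ⟨τ, hτ⟩ := LinearMap.exists_rightInverse_of_surjective _ hs1
  obtain ⟨σ, hσ⟩ := LinearMap.exists_rightInverse_of_surjective _ hs2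
  have hτ' : ∀ x : P, x - τ (Ideal.Quotient.mk 𝔞 x) ∈ 𝔞 := by
    intro x
    rw [← Ideal.Quotient.eq]
    have := LinearMap.congr_fun hτ (Ideal.Quotient.mk 𝔞 x)
    exact this.symm
  have hσ' : ∀ z : P', z - σ (Ideal.Quotient.mk _ z) ∈ 𝔐.map (φ : P →+* P') ⊔ 𝔠 := by
    intro x
    rw [← Ideal.Quotient.eq]
    have := LinearMap.congr_fun hσ (Ideal.Quotient.mk _ x)
    exact this.symm
  set I : Ideal P' := 𝔞.map (φ : P →+* P') ⊔ 𝔠 with hI
  let N : Submodule L P' := Submodule.span L {z | ∃ p b, z = φ p * σ b}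
  have hN : ∀ (p : P) (w : P'), w ∈ N → φ p * w ∈ N := by
    intro p w hw
    induction hw using Submodule.span_induction with
    | mem x hx =>
      obtain ⟨p', b, rfl⟩ := hx
      refine Submodule.subset_span ⟨p * p', b, ?_⟩
      rw [map_mul, mul_assoc]
    | zero => rw [mul_zero]; exact N.zero_mem
    | add x y _ _ hx hy => rw [mul_add]; exact N.add_mem hx hy
    | smul a x _ hx => rw [mul_smul_comm]; exact N.smul_mem _ hx
  have hN1 : ∀ z : P', ∃ w ∈ N, z - w ∈ 𝔐.map (φ : P →+* P') ⊔ 𝔠 := by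
    intro z
    refine ⟨σ (Ideal.Quotient.mk _ z),
      Submodule.subset_span ⟨1, Ideal.Quotient.mk _ z, ?_⟩, hσ' z⟩
    rw [map_one, one_mul]
  have hfin := approx_pow φ 𝔐 𝔠 N hN hN1 n
  let Θ : TensorProduct L (P ⧸ 𝔞) (P' ⧸ (𝔐.map (φ : P →+* P') ⊔ 𝔠)) →ₗ[L] P' ⧸ I :=
    TensorProduct.lift (LinearMap.mk₂ L
      (fun a b => Ideal.Quotient.mkₐ L I (φ (τ a) * σ b))
      (by intro a a' b; rw [map_add, map_add, add_mul, map_add])
      (by intro c a b; rw [map_smul, map_smul, smul_mul_assoc, map_smul])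
      (by intro a b b'; rw [map_add, mul_add, map_add])
      (by intro c a b; rw [map_smul, mul_smul_comm, map_smul]))
  have hNle : N ≤ (LinearMap.range Θ).comap (Ideal.Quotient.mkₐ L I).toLinearMap := by
    rw [Submodule.span_le]
    rintro _ ⟨p, b, rfl⟩
    refine ⟨(Ideal.Quotient.mk 𝔞 p) ⊗ₜ[L] b, ?_⟩
    change Ideal.Quotient.mk I (φ (τ (Ideal.Quotient.mk 𝔞 p)) * σ b) =
      Ideal.Quotient.mk I (φ p * σ b)
    rw [Ideal.Quotient.eq, ← sub_mul, ← map_sub]
    refine Ideal.mul_mem_right _ _ (Ideal.mem_sup_left ?_)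
    refine Ideal.mem_map_of_mem (φ : P →+* P') ?_
    have := hτ' p
    rw [← neg_sub]
    exact neg_mem this
  have hΘ : Function.Surjective Θ := by
    rw [← LinearMap.range_eq_top, eq_top_iff]
    rintro z -
    obtain ⟨z, rfl⟩ := Ideal.Quotient.mk_surjective z
    obtain ⟨w, hw, hzw⟩ := hfin z
    have hle : (𝔐 ^ n).map (φ : P →+* P') ⊔ 𝔠 ≤ I := sup_le_sup_right (Ideal.map_mono hn) _
    rw [Ideal.Quotient.eq.2 (hle hzw)]
    exact hNle hw
  refine ⟨Module.Finite.of_surjective Θ hΘ, ?_⟩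
  rw [← Module.finrank_tensorProduct]
  exact LinearMap.finrank_le_finrank_of_surjective hΘ

/-- A quotient of a polynomial ring by an ideal that contains a power of the ideal of a rational
point is finite dimensional. -/
theorem finite_quot_pow {L : Type} [Field L] {N : ℕ} (q : Fin N → L) (n : ℕ)
    (J : Ideal (MvPolynomial (Fin N) L)) :
    FiniteDimensional L (MvPolynomial (Fin N) L ⧸ (J ⊔ ptIdeal q ^ n)) := by
  set I : Ideal (MvPolynomial (Fin N) L) := J ⊔ ptIdeal q ^ n with hI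
  have hX : ∀ i, IsIntegral L (Ideal.Quotient.mk I (X i : MvPolynomial (Fin N) L)) := by
    intro i
    refine ⟨(Polynomial.X - Polynomial.C (q i)) ^ n,
      (Polynomial.monic_X_sub_C (q i)).pow n, ?_⟩
    rw [Polynomial.eval₂_pow, Polynomial.eval₂_sub, Polynomial.eval₂_X, Polynomial.eval₂_C]
    have e1 : algebraMap L (MvPolynomial (Fin N) L ⧸ I) (q i) =
        Ideal.Quotient.mk I (C (q i)) := rfl
    rw [e1, ← map_sub, ← map_pow, Ideal.Quotient.eq_zero_iff_mem]
    refine Ideal.mem_sup_right (Ideal.pow_mem_pow ?_ n)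
    exact Ideal.subset_span ⟨i, rfl⟩
  have hint : Algebra.IsIntegral L (MvPolynomial (Fin N) L ⧸ I) := by
    constructor
    intro z
    obtain ⟨p, rfl⟩ := Ideal.Quotient.mk_surjective z
    induction p using MvPolynomial.induction_on with
    | C a => exact isIntegral_algebraMap (R := L) (A := MvPolynomial (Fin N) L ⧸ I) (x := a)
    | add p r hp hr => rw [map_add]; exact hp.add hr
    | mul_X p i hp => rw [map_mul]; exact hp.mul (hX i)
  have hft : Algebra.FiniteType L (MvPolynomial (Fin N) L ⧸ I) :=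
    Algebra.FiniteType.of_surjective (Ideal.Quotient.mkₐ L I) (Ideal.Quotient.mkₐ_surjective L I)
  exact Algebra.IsIntegral.finite

/-- Powers of one generator. -/
theorem finrank_pow {L P' : Type} [Field L] [CommRing P'] [Algebra L P'] (t : P')
    (J : Ideal P') {e : ℕ} (he : 1 ≤ e)
    [FiniteDimensional L (P' ⧸ (Ideal.span {t} ⊔ J))] :
    FiniteDimensional L (P' ⧸ (Ideal.span {t ^ e} ⊔ J)) ∧
      Module.finrank L (P' ⧸ (Ideal.span {t ^ e} ⊔ J)) ≤
        e * Module.finrank L (P' ⧸ (Ideal.span {t} ⊔ J)) := by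
  have hm : (Polynomial.X ^ e : Polynomial L).Monic := Polynomial.monic_X_pow e
  have hfd : FiniteDimensional L (Polynomial L ⧸ Ideal.span {(Polynomial.X ^ e : Polynomial L)}) :=
    hm.finite_adjoinRoot
  have hfr : Module.finrank L (Polynomial L ⧸ Ideal.span {(Polynomial.X ^ e : Polynomial L)}) =
      e := by
    rw [finrank_quotient_span_eq_natDegree, Polynomial.natDegree_X_pow]
  have hmap1 : (Ideal.span {(Polynomial.X : Polynomial L)}).map
      ((Polynomial.aeval t : Polynomial L →ₐ[L] P') : Polynomial L →+* P') = Ideal.span {t} := by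
    rw [Ideal.map_span, Set.image_singleton]
    simp
  have hmap2 : (Ideal.span {(Polynomial.X ^ e : Polynomial L)}).map
      ((Polynomial.aeval t : Polynomial L →ₐ[L] P') : Polynomial L →+* P') =
        Ideal.span {t ^ e} := by
    rw [Ideal.map_span, Set.image_singleton]
    simp
  have hfd2 : FiniteDimensional L (P' ⧸ ((Ideal.span {(Polynomial.X : Polynomial L)}).map
      ((Polynomial.aeval t : Polynomial L →ₐ[L] P') : Polynomial L →+* P') ⊔ J)) := by
    rw [hmap1]; infer_instance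
  have key := finrank_chain (Polynomial.aeval t : Polynomial L →ₐ[L] P')
    (Ideal.span {(Polynomial.X : Polynomial L)})
    (Ideal.span {(Polynomial.X ^ e : Polynomial L)}) J
    (by
      intro p
      refine ⟨p.coeff 0, ?_⟩
      rw [Ideal.mem_span_singleton]
      exact Polynomial.X_dvd_sub_C)
    (n := e) (by rw [Ideal.span_singleton_pow])
  rw [hfr, hmap1, hmap2] at key
  exact key

end Pool.Agent.Helper74.RP
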