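import Pool.Agent.Helper74.RP.Exch

/-!
# The limit point at infinity (with the facts on orders as hypotheses)
-/

set_option autoImplicit false

namespace Pool.Agent.Helper74.RP

open MvPolynomial Filter Topology Pool.Agent.Helper65.RP

section D
variable {K Kb Ω : Type} [Field K] [Field Kb] [Algebra K Kb]
  [NormedField Ω] [Algebra K Ω] [Algebra Kb Ω] [IsScalarTower K Kb Ω] {N : ℕ}
  {𝒰 : Ultrafilter ℕ} {s : ℕ → ℝ} {z : ℕ → Fin N → K} {i₀ : Fin N}

theorem ev_X (z : ℕ → Fin N → K) (i : Fin N) (n : ℕ) :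
    ev Ω z (X i : MvPolynomial (Fin N) Kb) n = algebraMap K Ω (z n i) := by
  rw [ev, eval_X, ← IsScalarTower.algebraMap_apply]

theorem ev_lin (z : ℕ → Fin N → K) (c : Kb) (i j : Fin N) (n : ℕ) :
    ev Ω z (X i - C c * X j) n =
      algebraMap K Ω (z n i) - algebraMap Kb Ω c * algebraMap K Ω (z n j) := by
  rw [ev, map_sub, map_mul, eval_X, eval_X, eval_C, map_sub, map_mul,
    ← IsScalarTower.algebraMap_apply, ← IsScalarTower.algebraMap_apply]

/-- The dichotomy of orders. -/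
def Dich (Ω : Type) [NormedField Ω] [Algebra Kb Ω] (𝒰 : Ultrafilter ℕ) (s : ℕ → ℝ)
    (z : ℕ → Fin N → K) : Prop :=
  ∀ p : MvPolynomial (Fin N) Kb, (∀ᶠ n in (𝒰 : Filter ℕ), ev Ω z p n = 0) ∨
    ∃ β : ℝ, HasOrd 𝒰 s (ev Ω z p) β

theorem exists_center0 (h : Lev Ω 𝒰 s z i₀)
    (hd : Dich (Kb := Kb) Ω 𝒰 s z)
    (hc : ∀ (p q : MvPolynomial (Fin N) Kb) (α : ℝ), HasOrd 𝒰 s (ev Ω z p) α →
      HasOrd 𝒰 s (ev Ω z q) α → ∃ c : Kb, c ≠ 0 ∧
      ((∀ᶠ n in (𝒰 : Filter ℕ), ev Ω z (p - C c * q) n = 0) ∨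
        ∃ β : ℝ, α < β ∧ HasOrd 𝒰 s (ev Ω z (p - C c * q)) β)) :
    ∃ q : Fin N → Kb, IsCenter Ω 𝒰 s z i₀ q := by
  classical
  have h0 : HasOrd 𝒰 s (ev Ω z (X i₀ : MvPolynomial (Fin N) Kb)) (-1) := by
    refine ord_congr ?_ h.top
    filter_upwards with n
    rw [ev_X]
  have key : ∀ i : Fin N, ∃ c : Kb,
      (∀ᶠ n in (𝒰 : Filter ℕ), ev Ω z (X i - C c * X i₀) n = 0) ∨
      ∃ β : ℝ, -1 < β ∧ HasOrd 𝒰 s (ev Ω z (X i - C c * X i₀)) β := by
    intro i
    rcases hd (X i) with h1 | ⟨β, h1⟩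
    · refine ⟨0, Or.inl ?_⟩
      filter_upwards [h1] with n hn
      rwa [map_zero, zero_mul, sub_zero]
    · have h2 : (-1 : ℝ) ≤ β := by
        refine le_of_geOrd h.hs h1 ?_
        intro ε hε
        filter_upwards [h.ge i ε hε] with n hn
        rwa [ev_X]
      rcases h2.lt_or_eq with h3 | h3
      · refine ⟨0, Or.inr ⟨β, h3, ?_⟩⟩
        rwa [map_zero, zero_mul, sub_zero]
      · rw [← h3] at h1
        obtain ⟨c, _, h4⟩ := hc _ _ _ h1 h0
        exact ⟨c, h4⟩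
  choose c hc' using key
  refine ⟨Function.update c i₀ 1, by simp, fun i => ?_⟩
  by_cases hi : i = i₀
  · subst hi
    left
    filter_upwards with n
    rw [Function.update_self, ev_lin]
    simp
  · rw [Function.update_of_ne hi]
    exact hc' i

/-- A sequence of negative order avoids the zeros of a polynomial. -/
theorem eval_ne (h : Lev Ω 𝒰 s z i₀) (p : Polynomial K) (hp : p ≠ 0) :
    ∀ᶠ n in (𝒰 : Filter ℕ), p.eval (z n i₀) ≠ 0 := by
  classical
  by_contra h1
  rw [← Ultrafilter.eventually_not] at h1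
  have h2 : ∀ᶠ n in (𝒰 : Filter ℕ), ∃ r ∈ p.roots.toFinset, z n i₀ = r := by
    filter_upwards [h1] with n hn
    refine ⟨z n i₀, ?_, rfl⟩
    rw [Multiset.mem_toFinset, Polynomial.mem_roots hp]
    exact not_not.1 hn
  have h3 : ∃ r ∈ p.roots.toFinset, ∀ᶠ n in (𝒰 : Filter ℕ), z n i₀ = r := by
    have h4 : (⋃ r ∈ (p.roots.toFinset : Set K), {n : ℕ | z n i₀ = r}) ∈ 𝒰 := by
      refine mem_of_superset h2 ?_
      intro n hn
      obtain ⟨r, hr, hn⟩ := hn
      simp only [Set.mem_iUnion]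
      exact ⟨r, by exact_mod_cast hr, hn⟩
    rw [Ultrafilter.finite_biUnion_mem_iff (Finset.finite_toSet _)] at h4
    obtain ⟨r, hr, h5⟩ := h4
    exact ⟨r, by exact_mod_cast hr, h5⟩
  obtain ⟨r, -, h4⟩ := h3
  have h5 : HasOrd 𝒰 s (fun _ => algebraMap K Ω r) (-1) := by
    refine ord_congr ?_ h.top
    filter_upwards [h4] with n hn
    rw [hn]
  have h6 : algebraMap K Ω r ≠ 0 := by
    obtain ⟨n, hn⟩ := h5.1.exists
    exact hn
  have h7 := ord_unique h5 (ord_const h.hs h6)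
  norm_num at h7

theorem change_index0 {i₁ : Fin N} (h : Lev Ω 𝒰 s z i₁)
    (hd : Dich (Kb := Kb) Ω 𝒰 s z) {q₁ : Fin N → Kb}
    (hq : IsCenter Ω 𝒰 s z i₁ q₁) (q : Fin N → Kb) (c : Kb) (hc : c ≠ 0)
    (hqq : ∀ i, q₁ i = c * q i) (hq0 : q i₀ = 1) :
    Lev Ω 𝒰 s z i₀ ∧ IsCenter Ω 𝒰 s z i₀ q := by
  have hsmall : ∀ i, Small 𝒰 s (ev Ω z (X i - C (q₁ i) * X i₁)) (-1) := hq.2
  have hq10 : q₁ i₀ = c := by rw [hqq, hq0, mul_one]
  have hcΩ : algebraMap Kb Ω c ≠ 0 := by
    rw [Ne, map_eq_zero_iff _ (algebraMap Kb Ω).injective]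
    exact hc
  have htop : HasOrd 𝒰 s (fun n => algebraMap K Ω (z n i₀)) (-1) := by
    have h1 : HasOrd 𝒰 s (fun n => algebraMap Kb Ω c * algebraMap K Ω (z n i₁)) (0 + -1) :=
      ord_mul (ord_const h.hs hcΩ) h.top
    rw [zero_add] at h1
    refine ord_congr ?_ (ord_add h.hs h1 (hsmall i₀))
    filter_upwards with n
    rw [ev_lin, hq10]
    ring
  refine ⟨⟨h.hs, htop, h.ge, fun i => ?_⟩, hq0, fun i => ?_⟩
  · exact exch_seq (x₀ := fun n => z n i₀) (x₁ := fun n => z n i₁) (y := fun n => z n i)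
      (fun p hp => eval_ne h p hp) (h.alg i₀) (h.alg i)
  · rcases hd (X i - C (q i) * X i₀) with h1 | ⟨β, h1⟩
    · exact Or.inl h1
    · refine Or.inr ⟨β, ?_, h1⟩
      obtain ⟨γ₁, hγ₁, h2⟩ := (hsmall i).geOrd h.hs
      obtain ⟨γ₂, hγ₂, h3⟩ := (hsmall i₀).geOrd h.hs
      have h4 : GeOrd 𝒰 s (ev Ω z (X i - C (q i) * X i₀)) (min γ₁ γ₂) := by
        have h5 := geOrd_sub h.hs (geOrd_mono h.hs h2 (min_le_left γ₁ γ₂))
          (geOrd_const_mul h.hs (algebraMap Kb Ω (q i)) (geOrd_mono h.hs h3 (min_le_right γ₁ γ₂)))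
        intro ε hε
        filter_upwards [h5 ε hε] with n hn
        refine le_trans (le_of_eq ?_) hn
        congr 1
        simp only [ev_lin]
        rw [hqq i, hq10, map_mul]
        ring
      exact lt_of_lt_of_le (lt_min hγ₁ hγ₂) (le_of_geOrd h.hs h1 h4)

theorem center_tendsto (h : Lev Ω 𝒰 s z i₀) {q : Fin N → Kb} (hq : IsCenter Ω 𝒰 s z i₀ q)
    (i : Fin N) :
    Tendsto (fun n => algebraMap K Ω (z n i) / algebraMap K Ω (z n i₀)) (𝒰 : Filter ℕ)
      (𝓝 (algebraMap Kb Ω (q i))) := by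
  have hne := h.top.1
  rcases hq.2 i with h1 | ⟨β, hβ, h1⟩
  · refine tendsto_const_nhds.congr' ?_
    filter_upwards [h1, hne] with n h2 h3
    rw [ev_lin] at h2
    rw [eq_div_iff h3]
    exact (sub_eq_zero.1 h2).symm
  · have h2 : Tendsto (fun n => ev Ω z (X i - C (q i) * X i₀) n / algebraMap K Ω (z n i₀))
        (𝒰 : Filter ℕ) (𝓝 0) :=
      tendsto_zero_of_hasOrd h.hs (ord_div h1 h.top) (by linarith)
    have h3 := h2.const_add (algebraMap Kb Ω (q i))
    rw [add_zero] at h3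
    refine h3.congr' ?_
    filter_upwards [hne] with n h4
    rw [ev_lin]
    field_simp
    ring

end D

/-- Scaling in a homogeneous polynomial. -/
theorem aeval_scale {K Ω : Type} [Field K] [Field Ω] [Algebra K Ω] {N k : ℕ}
    {G : MvPolynomial (Fin N) K} (hG : G.IsHomogeneous k) (t : Ω) (u : Fin N → Ω) :
    aeval (fun i => t * u i) G = t ^ k * aeval u G := by
  rw [aeval_def, aeval_def, eval₂_eq', eval₂_eq', Finset.mul_sum]
  refine Finset.sum_congr rfl fun m hm => ?_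
  have h1 : ∑ i, m i = k := by
    rw [← hG (mem_support_iff.1 hm), Finsupp.weight_apply, Finsupp.sum_fintype]
    · simp
    · simp
  simp only [mul_pow]
  rw [Finset.prod_mul_distrib, Finset.prod_pow_eq_pow_sum, h1]
  ring

section E
variable {K Kb Ω : Type} [Field K] [Field Kb] [Algebra K Kb]
  [NormedField Ω] [Algebra K Ω] [Algebra Kb Ω] [IsScalarTower K Kb Ω] {N : ℕ}
  {𝒰 : Ultrafilter ℕ} {s : ℕ → ℝ} {z : ℕ → Fin N → K} {i₀ : Fin N}

theorem lead_tendsto (h : Lev Ω 𝒰 s z i₀) {q : Fin N → Kb} (hq : IsCenter Ω 𝒰 s z i₀ q)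
    (F : MvPolynomial (Fin N) K) (D : ℕ) (hD : F.totalDegree ≤ D) :
    Tendsto (fun n => algebraMap K Ω (eval (z n) F) / (algebraMap K Ω (z n i₀)) ^ D)
      (𝒰 : Filter ℕ) (𝓝 (algebraMap Kb Ω (aeval q (homogeneousComponent D F)))) := by
  have hne := h.top.1
  have hr : Tendsto (fun n => (algebraMap K Ω (z n i₀))⁻¹) (𝒰 : Filter ℕ) (𝓝 0) :=
    tendsto_zero_of_hasOrd h.hs (ord_inv h.top) (by norm_num)
  have hu : Tendsto (fun n i => algebraMap K Ω (z n i) / algebraMap K Ω (z n i₀))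
      (𝒰 : Filter ℕ) (𝓝 (fun i => algebraMap Kb Ω (q i))) :=
    tendsto_pi_nhds.2 fun i => center_tendsto h hq i
  have hcont : ∀ G : MvPolynomial (Fin N) K, Tendsto (fun n =>
      aeval (fun i => algebraMap K Ω (z n i) / algebraMap K Ω (z n i₀)) G)
      (𝒰 : Filter ℕ) (𝓝 (aeval (fun i => algebraMap Kb Ω (q i)) G)) := by
    intro G
    have h1 : Continuous fun x : Fin N → Ω => eval x (map (algebraMap K Ω) G) :=
      MvPolynomial.continuous_eval _
    have h2 := (h1.tendsto (fun i => algebraMap Kb Ω (q i))).comp hu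
    simp only [eval_map, Function.comp_def] at h2
    exact h2
  have hlim : Tendsto (fun n => ∑ k ∈ Finset.range (D + 1),
      ((algebraMap K Ω (z n i₀))⁻¹) ^ (D - k) *
        aeval (fun i => algebraMap K Ω (z n i) / algebraMap K Ω (z n i₀))
          (homogeneousComponent k F)) (𝒰 : Filter ℕ)
      (𝓝 (∑ k ∈ Finset.range (D + 1), (0 : Ω) ^ (D - k) *
        aeval (fun i => algebraMap Kb Ω (q i)) (homogeneousComponent k F))) :=
    tendsto_finsetSum _ fun k _ => (hr.pow (D - k)).mul (hcont _)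
  have hval : ∑ k ∈ Finset.range (D + 1), (0 : Ω) ^ (D - k) *
      aeval (fun i => algebraMap Kb Ω (q i)) (homogeneousComponent k F) =
      algebraMap Kb Ω (aeval q (homogeneousComponent D F)) := by
    rw [Finset.sum_eq_single D]
    · rw [Nat.sub_self, pow_zero, one_mul]
      exact MvPolynomial.aeval_algebraMap_apply Ω q _
    · intro k hk hkD
      have : D - k ≠ 0 := by
        have := Finset.mem_range.1 hk
        omega
      rw [zero_pow this, zero_mul]
    · intro hD'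
      exact absurd (Finset.mem_range.2 (Nat.lt_succ_self D)) hD'
  rw [hval] at hlim
  refine hlim.congr' ?_
  filter_upwards [hne] with n hn
  have hsum : F = ∑ k ∈ Finset.range (D + 1), homogeneousComponent k F := by
    conv_lhs => rw [← sum_homogeneousComponent F]
    refine Finset.sum_subset ?_ ?_
    · intro k hk
      rw [Finset.mem_range] at hk ⊢
      omega
    · intro k _ hk
      rw [Finset.mem_range] at hk
      exact homogeneousComponent_eq_zero _ _ (by omega)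
  have hval2 : algebraMap K Ω (eval (z n) F) =
      aeval (fun i => algebraMap K Ω (z n i)) F := by
    have h1 := MvPolynomial.aeval_algebraMap_apply Ω (z n) F
    have h2 : (aeval (z n) : MvPolynomial (Fin N) K →ₐ[K] K) F = eval (z n) F := by
      rw [← coe_aeval_eq_eval]
      rfl
    rw [← h2, ← h1]
    rfl
  have hz : (fun i => algebraMap K Ω (z n i)) =
      fun i => algebraMap K Ω (z n i₀) *
        (algebraMap K Ω (z n i) / algebraMap K Ω (z n i₀)) := by
    funext i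
    field_simp
  rw [hval2]
  conv_rhs => rw [hsum, hz, map_sum, Finset.sum_div]
  refine Finset.sum_congr rfl fun k hk => ?_
  rw [aeval_scale (homogeneousComponent_isHomogeneous k F)]
  have hk' : k ≤ D := by
    have := Finset.mem_range.1 hk
    omega
  have h5 : (algebraMap K Ω (z n i₀)) ^ D = (algebraMap K Ω (z n i₀)) ^ (D - k) *
      (algebraMap K Ω (z n i₀)) ^ k := by
    rw [← pow_add]
    congr 1
    omega
  rw [h5, inv_pow]
  field_simp

theorem center_map0 {d : ℕ} {f : Fin N → MvPolynomial (Fin N) K} (hf : Regular Kb d f)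
    (h : Lev Ω 𝒰 s z i₀) {q : Fin N → Kb} (hq : IsCenter Ω 𝒰 s z i₀ q)
    {s' : ℕ → ℝ} {z' : ℕ → Fin N → K} {j₀ : Fin N} (h' : Lev Ω 𝒰 s' z' j₀) {q' : Fin N → Kb}
    (hq' : IsCenter Ω 𝒰 s' z' j₀ q')
    (hz : ∀ᶠ n in (𝒰 : Filter ℕ), ∀ i, z n i = eval (z' n) (f i)) :
    ∃ c : Kb, c ≠ 0 ∧ ∀ i, aeval q' (homogeneousComponent d (f i)) = c * q i := by
  have h1 : ∀ i, Tendsto (fun n => algebraMap K Ω (z n i) / (algebraMap K Ω (z' n j₀)) ^ d)
      (𝒰 : Filter ℕ) (𝓝 (algebraMap Kb Ω (aeval q' (homogeneousComponent d (f i))))) := by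
    intro i
    refine (lead_tendsto h' hq' (f i) d (hf.1 i)).congr' ?_
    filter_upwards [hz] with n hn
    rw [hn i]
  have h2 : ∀ i, Tendsto (fun n => algebraMap K Ω (z n i) / (algebraMap K Ω (z' n j₀)) ^ d)
      (𝒰 : Filter ℕ) (𝓝 (algebraMap Kb Ω (q i) *
        algebraMap Kb Ω (aeval q' (homogeneousComponent d (f i₀))))) := by
    intro i
    refine ((center_tendsto h hq i).mul (h1 i₀)).congr' ?_
    filter_upwards [h.top.1] with n hn
    field_simp
  have h3 : ∀ i, aeval q' (homogeneousComponent d (f i)) =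
      aeval q' (homogeneousComponent d (f i₀)) * q i := by
    intro i
    have h4 := tendsto_nhds_unique (h1 i) (h2 i)
    rw [← map_mul] at h4
    rw [(algebraMap Kb Ω).injective h4, mul_comm]
  refine ⟨aeval q' (homogeneousComponent d (f i₀)), fun h0 => ?_, h3⟩
  have h5 : q' = 0 := hf.2 q' fun i => by rw [h3, h0, zero_mul]
  have h6 := hq'.1
  rw [h5] at h6
  simp at h6

theorem center_mem0 (h : Lev Ω 𝒰 s z i₀) {q : Fin N → Kb} (hq : IsCenter Ω 𝒰 s z i₀ q)
    {F : MvPolynomial (Fin N) K} (hF : F ∈ van 𝒰 z) :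
    aeval q (homogeneousComponent F.totalDegree F) = 0 := by
  have h1 := lead_tendsto h hq F F.totalDegree le_rfl
  have h2 : Tendsto (fun n => algebraMap K Ω (eval (z n) F) /
      (algebraMap K Ω (z n i₀)) ^ F.totalDegree) (𝒰 : Filter ℕ) (𝓝 0) := by
    refine tendsto_const_nhds.congr' ?_
    have h3 : ∀ᶠ n in (𝒰 : Filter ℕ), eval (z n) F = 0 := hF
    filter_upwards [h3] with n hn
    rw [hn, map_zero, zero_div]
  have h3 := tendsto_nhds_unique h1 h2
  exact (map_eq_zero_iff _ (algebraMap Kb Ω).injective).1 h3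

end E

end Pool.Agent.Helper74.RP
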