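import Pool.Agent.Helper74.RP.Ord

/-!
# Exchange for algebraic dependence of sequences along an ultrafilter
-/

set_option autoImplicit false

namespace Pool.Agent.Helper74.RP

open Filter Topology Pool.Agent.Helper65.RP

theorem eval2_eq_aevalAeval {K L : Type} [Field K] [Field L] [Algebra K L] (t x : L)
    (R : Polynomial (Polynomial K)) :
    Polynomial.eval₂ ((Polynomial.aeval t : Polynomial K →ₐ[K] L) : Polynomial K →+* L) x R =
      Polynomial.aevalAeval t x R := by
  have h : Polynomial.eval₂RingHom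
      ((Polynomial.aeval t : Polynomial K →ₐ[K] L) : Polynomial K →+* L) x =
      ((Polynomial.aevalAeval t x : Polynomial (Polynomial K) →ₐ[K] L) :
        Polynomial (Polynomial K) →+* L) := by
    apply Polynomial.ringHom_ext
    · intro p
      simp
    · simp
  exact DFunLike.congr_fun h R

/-- Exchange in a field extension. -/
theorem exch_field {K L : Type} [Field K] [Field L] [Algebra K L] {t₀ t₁ w : L}
    (h1 : Transcendental K t₁)
    (h10 : ∃ R : Polynomial (Polynomial K), R ≠ 0 ∧ Polynomial.aevalAeval t₁ t₀ R = 0)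
    (hw : ∃ R : Polynomial (Polynomial K), R ≠ 0 ∧ Polynomial.aevalAeval t₁ w R = 0) :
    ∃ R : Polynomial (Polynomial K), R ≠ 0 ∧ Polynomial.aevalAeval t₀ w R = 0 := by
  let alg : Algebra (Polynomial K) L :=
    ((Polynomial.aeval t₀ : Polynomial K →ₐ[K] L) : Polynomial K →+* L).toAlgebra
  have key : ∀ (x : L) (R : Polynomial (Polynomial K)),
      Polynomial.aeval x R = Polynomial.aevalAeval t₀ x R := by
    intro x R
    rw [← eval2_eq_aevalAeval, Polynomial.aeval_def]
    rfl
  have key2 : ∀ (x : L) (R : Polynomial (Polynomial K)),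
      Polynomial.eval₂ ((Polynomial.aeval t₁ : Polynomial K →ₐ[K] L) : Polynomial K →+* L) x R =
        Polynomial.aevalAeval t₁ x R := by
    intro x R
    exact eval2_eq_aevalAeval t₁ x R
  have ht1 : IsAlgebraic (Polynomial K) t₁ := by
    obtain ⟨R, hR, hR0⟩ := h10
    refine ⟨Polynomial.Bivariate.swap R, ?_, ?_⟩
    · simpa using hR
    · rw [key, Polynomial.Bivariate.aevalAeval_swap, hR0]
  have hB : (Algebra.adjoin (Polynomial K) {t₁}).IsAlgebraic :=
    Algebra.isAlgebraic_adjoin_singleton_iff.2 ht1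
  have hB' : Algebra.IsAlgebraic (Polynomial K) (Algebra.adjoin (Polynomial K) {t₁}) :=
    (Subalgebra.isAlgebraic_iff _).1 hB
  let b : Algebra.adjoin (Polynomial K) {t₁} := ⟨t₁, Algebra.self_mem_adjoin_singleton _ _⟩
  let g : Polynomial K →+* Algebra.adjoin (Polynomial K) {t₁} :=
    Polynomial.eval₂RingHom
      ((algebraMap (Polynomial K) (Algebra.adjoin (Polynomial K) {t₁})).comp Polynomial.C) b
  have hg : (algebraMap (Algebra.adjoin (Polynomial K) {t₁}) L).comp g =
      ((Polynomial.aeval t₁ : Polynomial K →ₐ[K] L) : Polynomial K →+* L) := by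
    apply Polynomial.ringHom_ext
    · intro a
      simp only [g, RingHom.comp_apply, Polynomial.coe_eval₂RingHom, Polynomial.eval₂_C]
      rw [← IsScalarTower.algebraMap_apply (Polynomial K)
        (Algebra.adjoin (Polynomial K) {t₁}) L]
      change Polynomial.aeval t₀ (Polynomial.C a) = Polynomial.aeval t₁ (Polynomial.C a)
      rw [Polynomial.aeval_C, Polynomial.aeval_C]
    · simp only [g, RingHom.comp_apply, Polynomial.coe_eval₂RingHom, Polynomial.eval₂_X]
      change t₁ = Polynomial.aeval t₁ Polynomial.X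
      rw [Polynomial.aeval_X]
  have hginj : Function.Injective g := by
    have h2 : Function.Injective (Polynomial.aeval t₁ : Polynomial K →ₐ[K] L) :=
      transcendental_iff_injective.1 h1
    intro p q hpq
    apply h2
    have h3 := congrArg (algebraMap (Algebra.adjoin (Polynomial K) {t₁}) L) hpq
    rw [← RingHom.comp_apply, ← RingHom.comp_apply, hg] at h3
    exact h3
  have hwB : IsAlgebraic (Algebra.adjoin (Polynomial K) {t₁}) w := by
    obtain ⟨R, hR, hR0⟩ := hw
    refine ⟨R.map g, (Polynomial.map_ne_zero_iff hginj).2 hR, ?_⟩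
    rw [Polynomial.aeval_def, Polynomial.eval₂_map, hg, key2, hR0]
  have hwK : IsAlgebraic (Polynomial K) w := hwB.restrictScalars (Polynomial K)
  obtain ⟨R, hR, hR0⟩ := hwK
  exact ⟨R, hR, by rw [← key, hR0]⟩

section germ
variable {K : Type} [Field K] {𝒰 : Ultrafilter ℕ}

/-- Exchange for sequences. -/
theorem exch_seq {x₀ x₁ y : ℕ → K}
    (h1 : ∀ p : Polynomial K, p ≠ 0 → ∀ᶠ n in (𝒰 : Filter ℕ), p.eval (x₁ n) ≠ 0)
    (h10 : ∃ R : Polynomial (Polynomial K), R ≠ 0 ∧
      ∀ᶠ n in (𝒰 : Filter ℕ), (R.map (Polynomial.evalRingHom (x₁ n))).eval (x₀ n) = 0)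
    (hy : ∃ R : Polynomial (Polynomial K), R ≠ 0 ∧
      ∀ᶠ n in (𝒰 : Filter ℕ), (R.map (Polynomial.evalRingHom (x₁ n))).eval (y n) = 0) :
    ∃ R : Polynomial (Polynomial K), R ≠ 0 ∧
      ∀ᶠ n in (𝒰 : Filter ℕ), (R.map (Polynomial.evalRingHom (x₀ n))).eval (y n) = 0 := by
  let L := Germ (𝒰 : Filter ℕ) K
  let _ : Algebra K L := ((Germ.coeRingHom (𝒰 : Filter ℕ)).comp (Pi.constRingHom ℕ K)).toAlgebra
  let φ : (ℕ → K) →ₐ[K] L :=
    { Germ.coeRingHom (𝒰 : Filter ℕ) with commutes' := fun r => rfl }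
  have hφ0 : ∀ u : ℕ → K, φ u = 0 ↔ ∀ᶠ n in (𝒰 : Filter ℕ), u n = 0 := by
    intro u
    change ((u : L) = ((0 : ℕ → K) : L)) ↔ _
    rw [Germ.coe_eq]
    rfl
  have hpi : ∀ (x y : ℕ → K) (R : Polynomial (Polynomial K)) (n : ℕ),
      (Polynomial.aevalAeval x y R) n = (R.map (Polynomial.evalRingHom (x n))).eval (y n) := by
    intro x y R n
    rw [Polynomial.map_evalRingHom_eval, ← Polynomial.coe_aevalAeval_eq_evalEval]
    have : (Pi.evalAlgHom K (fun _ : ℕ => K) n).comp (Polynomial.aevalAeval x y) =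
        Polynomial.aevalAeval (x n) (y n) := by
      ext <;> simp
    have h2 := DFunLike.congr_fun this R
    exact h2
  have hφ : ∀ (x y : ℕ → K) (R : Polynomial (Polynomial K)),
      Polynomial.aevalAeval (φ x) (φ y) R = φ (Polynomial.aevalAeval x y R) := by
    intro x y R
    have : φ.comp (Polynomial.aevalAeval x y) = Polynomial.aevalAeval (φ x) (φ y) := by
      ext <;> simp
    rw [← this]
    rfl
  have hrel : ∀ (x y : ℕ → K) (R : Polynomial (Polynomial K)),
      Polynomial.aevalAeval (φ x) (φ y) R = 0 ↔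
        ∀ᶠ n in (𝒰 : Filter ℕ), (R.map (Polynomial.evalRingHom (x n))).eval (y n) = 0 := by
    intro x y R
    rw [hφ, hφ0]
    simp only [hpi]
  have ht : Transcendental K (φ x₁) := by
    rw [transcendental_iff]
    intro p hp
    by_contra hp0
    have h3 : Polynomial.aeval (φ x₁) p = φ (Polynomial.aeval x₁ p) :=
      (Polynomial.aeval_algHom_apply φ x₁ p)
    rw [h3, hφ0] at hp
    obtain ⟨n, h4, h5⟩ := (hp.and (h1 p hp0)).exists
    apply h5
    rw [← h4]
    have h6 : (Pi.evalAlgHom K (fun _ : ℕ => K) n) (Polynomial.aeval x₁ p) =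
        Polynomial.aeval (Pi.evalAlgHom K (fun _ : ℕ => K) n x₁) p :=
      (Polynomial.aeval_algHom_apply _ x₁ p).symm
    have h7 : (Polynomial.aeval x₁ p : ℕ → K) n = Polynomial.aeval (x₁ n) p := h6
    rw [h7, Polynomial.aeval_def, Polynomial.eval₂_eq_eval_map]
    simp
  obtain ⟨R, hR, hR0⟩ := exch_field (t₀ := φ x₀) (t₁ := φ x₁) (w := φ y) ht
    (by obtain ⟨R, hR, h⟩ := h10; exact ⟨R, hR, (hrel _ _ _).2 h⟩)
    (by obtain ⟨R, hR, h⟩ := hy; exact ⟨R, hR, (hrel _ _ _).2 h⟩)
  exact ⟨R, hR, (hrel _ _ _).1 hR0⟩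

end germ

end Pool.Agent.Helper74.RP
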