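import Pool.Agent.Helper65.RP.Defs

/-!
# Orders of sequences along an ultrafilter: basic facts
-/

set_option autoImplicit false

namespace Pool.Agent.Helper74.RP

open MvPolynomial Filter Topology Pool.Agent.Helper65.RP

section ord
variable {Ω : Type} [NormedField Ω] {𝒰 : Ultrafilter ℕ} {s : ℕ → ℝ} {u v : ℕ → Ω} {α β : ℝ}

theorem ord_congr (h : ∀ᶠ n in (𝒰 : Filter ℕ), u n = v n) (hu : HasOrd 𝒰 s u α) :
    HasOrd 𝒰 s v α := by
  obtain ⟨h1, h2⟩ := hu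
  refine ⟨?_, h2.congr' ?_⟩
  · filter_upwards [h, h1] with n hn h1
    rwa [← hn]
  · filter_upwards [h] with n hn
    rw [hn]

theorem ord_mul (hu : HasOrd 𝒰 s u α) (hv : HasOrd 𝒰 s v β) :
    HasOrd 𝒰 s (fun n => u n * v n) (α + β) := by
  obtain ⟨h1, h2⟩ := hu
  obtain ⟨h3, h4⟩ := hv
  refine ⟨?_, (h2.add h4).congr' ?_⟩
  · filter_upwards [h1, h3] with n a b
    exact mul_ne_zero a b
  · filter_upwards [h1, h3] with n a b
    rw [norm_mul, Real.log_mul (norm_ne_zero_iff.2 a) (norm_ne_zero_iff.2 b)]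
    ring

theorem ord_inv (hu : HasOrd 𝒰 s u α) : HasOrd 𝒰 s (fun n => (u n)⁻¹) (-α) := by
  obtain ⟨h1, h2⟩ := hu
  refine ⟨?_, h2.neg.congr' ?_⟩
  · filter_upwards [h1] with n a
    exact inv_ne_zero a
  · filter_upwards with n
    rw [norm_inv, Real.log_inv]
    ring

theorem ord_div (hu : HasOrd 𝒰 s u α) (hv : HasOrd 𝒰 s v β) :
    HasOrd 𝒰 s (fun n => u n / v n) (α - β) := by
  have := ord_mul hu (ord_inv hv)
  simpa only [div_eq_mul_inv, sub_eq_add_neg] using this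

theorem ord_unique (hu : HasOrd 𝒰 s u α) (hv : HasOrd 𝒰 s u β) : α = β :=
  tendsto_nhds_unique hu.2 hv.2

/-- A sequence with a nonzero limit has order zero. -/
theorem ord_of_tendsto (hs : Tendsto s (𝒰 : Filter ℕ) atTop) {c : Ω} (hc : c ≠ 0)
    (hu : Tendsto u (𝒰 : Filter ℕ) (𝓝 c)) : HasOrd 𝒰 s u 0 := by
  refine ⟨hu.eventually_ne hc, ?_⟩
  have h1 : Tendsto (fun n => -Real.log ‖u n‖) (𝒰 : Filter ℕ) (𝓝 (-Real.log ‖c‖)) :=
    (hu.norm.log (norm_ne_zero_iff.2 hc)).neg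
  exact h1.div_atTop hs

theorem ord_const (hs : Tendsto s (𝒰 : Filter ℕ) atTop) {c : Ω} (hc : c ≠ 0) :
    HasOrd 𝒰 s (fun _ => c) 0 :=
  ord_of_tendsto hs hc tendsto_const_nhds

theorem geOrd_of_zero (h : ∀ᶠ n in (𝒰 : Filter ℕ), u n = 0) : GeOrd 𝒰 s u α := by
  intro ε hε
  filter_upwards [h] with n hn
  rw [hn, norm_zero]
  exact (Real.exp_pos _).le

theorem geOrd_of_hasOrd (hs : Tendsto s (𝒰 : Filter ℕ) atTop) (hu : HasOrd 𝒰 s u α) :
    GeOrd 𝒰 s u α := by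
  intro ε hε
  have h1 : ∀ᶠ n in (𝒰 : Filter ℕ), α - ε < -Real.log ‖u n‖ / s n :=
    hu.2.eventually (lt_mem_nhds (by linarith))
  filter_upwards [h1, hu.1, hs.eventually (eventually_gt_atTop 0)] with n h2 h3 h4
  have h5 : 0 < ‖u n‖ := norm_pos_iff.2 h3
  rw [lt_div_iff₀ h4] at h2
  rw [← Real.log_le_iff_le_exp h5]
  linarith

theorem le_of_geOrd (hs : Tendsto s (𝒰 : Filter ℕ) atTop) (hu : HasOrd 𝒰 s u β)
    (h : GeOrd 𝒰 s u α) : α ≤ β := by
  by_contra hlt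
  push Not at hlt
  have h1 := h ((α - β) / 2) (by linarith)
  have h2 : ∀ᶠ n in (𝒰 : Filter ℕ), -Real.log ‖u n‖ / s n < (α + β) / 2 :=
    hu.2.eventually (gt_mem_nhds (by linarith))
  have h3 := h1.and (h2.and (hu.1.and (hs.eventually (eventually_gt_atTop 0))))
  obtain ⟨n, h4, h5, h6, h7⟩ := h3.exists
  have h8 : 0 < ‖u n‖ := norm_pos_iff.2 h6
  rw [div_lt_iff₀ h7] at h5
  rw [← Real.log_le_iff_le_exp h8] at h4
  linarith

theorem geOrd_mono (hs : Tendsto s (𝒰 : Filter ℕ) atTop) (h : GeOrd 𝒰 s u α) (hb : β ≤ α) :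
    GeOrd 𝒰 s u β := by
  intro ε hε
  filter_upwards [h ε hε, hs.eventually (eventually_gt_atTop 0)] with n h1 h2
  refine h1.trans (Real.exp_le_exp.2 ?_)
  have : (β - ε) * s n ≤ (α - ε) * s n := mul_le_mul_of_nonneg_right (by linarith) h2.le
  linarith

theorem geOrd_sub (hs : Tendsto s (𝒰 : Filter ℕ) atTop) (h : GeOrd 𝒰 s u α)
    (h' : GeOrd 𝒰 s v α) : GeOrd 𝒰 s (fun n => u n - v n) α := by
  intro ε hε
  filter_upwards [h (ε / 2) (by linarith), h' (ε / 2) (by linarith),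
    hs.eventually (eventually_gt_atTop (2 / ε))] with n h1 h2 h3
  have h4 : 1 < ε / 2 * s n := by
    rw [div_lt_iff₀ hε] at h3
    linarith
  have h5 : (2 : ℝ) ≤ Real.exp (ε / 2 * s n) := by
    have := Real.add_one_le_exp (ε / 2 * s n)
    linarith
  calc ‖u n - v n‖ ≤ ‖u n‖ + ‖v n‖ := norm_sub_le _ _
    _ ≤ 2 * Real.exp (-(α - ε / 2) * s n) := by linarith
    _ ≤ Real.exp (ε / 2 * s n) * Real.exp (-(α - ε / 2) * s n) :=
        mul_le_mul_of_nonneg_right h5 (Real.exp_pos _).le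
    _ = Real.exp (-(α - ε) * s n) := by
        rw [← Real.exp_add]
        congr 1
        ring

theorem geOrd_const_mul (hs : Tendsto s (𝒰 : Filter ℕ) atTop) (c : Ω) (h : GeOrd 𝒰 s u α) :
    GeOrd 𝒰 s (fun n => c * u n) α := by
  intro ε hε
  filter_upwards [h (ε / 2) (by linarith),
    hs.eventually (eventually_gt_atTop (2 * ‖c‖ / ε))] with n h1 h3
  have h4 : ‖c‖ < ε / 2 * s n := by
    rw [div_lt_iff₀ hε] at h3
    linarith
  have h5 : ‖c‖ ≤ Real.exp (ε / 2 * s n) := by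
    have := Real.add_one_le_exp (ε / 2 * s n)
    linarith
  calc ‖c * u n‖ = ‖c‖ * ‖u n‖ := norm_mul _ _
    _ ≤ Real.exp (ε / 2 * s n) * Real.exp (-(α - ε / 2) * s n) :=
        mul_le_mul h5 h1 (norm_nonneg _) (Real.exp_pos _).le
    _ = Real.exp (-(α - ε) * s n) := by
        rw [← Real.exp_add]
        congr 1
        ring

/-- Positive order: the sequence tends to zero. -/
theorem tendsto_zero_of_geOrd (hs : Tendsto s (𝒰 : Filter ℕ) atTop) (h : GeOrd 𝒰 s u α)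
    (hα : 0 < α) : Tendsto u (𝒰 : Filter ℕ) (𝓝 0) := by
  rw [tendsto_zero_iff_norm_tendsto_zero]
  have h1 : Tendsto (fun n => Real.exp (-(α - α / 2) * s n)) (𝒰 : Filter ℕ) (𝓝 0) := by
    refine Real.tendsto_exp_atBot.comp ?_
    have : Tendsto (fun n => α / 2 * s n) (𝒰 : Filter ℕ) atTop :=
      hs.const_mul_atTop (by linarith)
    refine (tendsto_neg_atTop_atBot.comp this).congr fun n => ?_
    simp only [Function.comp]
    ring
  refine squeeze_zero' (Eventually.of_forall fun n => norm_nonneg _) ?_ h1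
  exact h (α / 2) (by linarith)

theorem tendsto_zero_of_hasOrd (hs : Tendsto s (𝒰 : Filter ℕ) atTop) (h : HasOrd 𝒰 s u α)
    (hα : 0 < α) : Tendsto u (𝒰 : Filter ℕ) (𝓝 0) :=
  tendsto_zero_of_geOrd hs (geOrd_of_hasOrd hs h) hα

/-- Zero almost everywhere or of an order larger than `α`. -/
def Small (𝒰 : Ultrafilter ℕ) (s : ℕ → ℝ) (u : ℕ → Ω) (α : ℝ) : Prop :=
  (∀ᶠ n in (𝒰 : Filter ℕ), u n = 0) ∨ ∃ β : ℝ, α < β ∧ HasOrd 𝒰 s u β

theorem Small.geOrd (hs : Tendsto s (𝒰 : Filter ℕ) atTop) (h : Small 𝒰 s u α) :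
    ∃ γ, α < γ ∧ GeOrd 𝒰 s u γ := by
  rcases h with h | ⟨β, h1, h2⟩
  · exact ⟨α + 1, by linarith, geOrd_of_zero h⟩
  · exact ⟨β, h1, geOrd_of_hasOrd hs h2⟩

/-- Adding a sequence of larger order does not change the order. -/
theorem ord_add (hs : Tendsto s (𝒰 : Filter ℕ) atTop) (hu : HasOrd 𝒰 s u α)
    (hv : Small 𝒰 s v α) : HasOrd 𝒰 s (fun n => u n + v n) α := by
  rcases hv with hv | ⟨β, hβ, hv⟩
  · refine ord_congr ?_ hu
    filter_upwards [hv] with n hn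
    rw [hn, add_zero]
  · have h1 : Tendsto (fun n => v n / u n) (𝒰 : Filter ℕ) (𝓝 0) :=
      tendsto_zero_of_hasOrd hs (ord_div hv hu) (by linarith)
    have h2 : Tendsto (fun n => 1 + v n / u n) (𝒰 : Filter ℕ) (𝓝 (1 + 0)) :=
      tendsto_const_nhds.add h1
    rw [add_zero] at h2
    have h3 := ord_mul hu (ord_of_tendsto hs one_ne_zero h2)
    rw [add_zero] at h3
    refine ord_congr ?_ h3
    filter_upwards [hu.1] with n hn
    field_simp

end ord

end Pool.Agent.Helper74.RP
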